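import Pool.Agent.Work.MP_d02fb9_lc.FMain

namespace Pool.Agent.Results.MP_d02fb9_lc.ConLamLtMu

open Cardinal Pool.Agent.Lib.ZFModel Pool.Agent.Work.MP_d02fb9_lc

/-- If some infinite `κ` has `cof([κ]^ℵ₀) > κ⁺`, then there is a model of ZFC in which
`λ ≤ 𝔡 < μ`. -/
theorem result (κ : Cardinal.{0}) (h0 : ℵ₀ ≤ κ) (h : Order.succ κ < cofCtble κ) :
    ∃ (M : Type 1) (E : M → M → Prop), IsZFC E ∧
      ∃ θ : M, IsOrd E θ ∧ DomLe E θ ∧ (∀ ν, E ν θ → ¬ DomLe E ν) ∧ ¬ CofLe E θ ∧ LamLe E θ ∧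
        ∀ m, IsOrd E m → DomLe E m → CofLe E m → E θ m := by
  obtain ⟨M, E, zfc, θ, h1, h2, h3, h4, h5⟩ := exists_model h0 h
  refine ⟨M, E, zfc, θ, h1, h2, h3, h4, h5, fun m a1 a2 a3 => ?_⟩
  rcases ord_trichotomy zfc.zf h1 a1 with h | rfl | h
  · exact h
  · exact absurd a3 h4
  · exact absurd a2 (h3 m h)

end Pool.Agent.Results.MP_d02fb9_lc.ConLamLtMu
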