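import Pool.Agent.Work.MP_d02fb9_lc.S.Main

namespace Pool.Agent.Results.MP_d02fb9_lc.WeakHypothesis

open Cardinal Pool.Agent.Work.MP_d02fb9_lc Pool.Agent.Work.MP_d02fb9_lc.S

/-- If `𝔡 ≤ κ` and the uncountable cofinalities of the local dominating numbers are covered by
at most `ν < 𝔟` sets of regular cardinals whose countable ultraproducts have cofinality at most
`κ`, then closed discrete subspaces of regular strongly star-Menger spaces have size less
than `κ`. -/
theorem result (κ ν : Cardinal.{0}) (hd : domNum ≤ κ) (hν : ℵ₀ ≤ ν) (hb : ν < bddNum)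
    (hfix : cofCtble ν ≤ ν) (ι : Type) (hι : #ι ≤ ν) (R : ι → Set Cardinal.{0})
    (hR : ∀ j, SmallProducts (R j) κ)
    (hcov : ∀ Y : Set (ℕ → ℕ), ℵ₀ < (locDom Y).ord.cof → ∃ j, (locDom Y).ord.cof ∈ R j)
    (X : Type) [TopologicalSpace X] [T3Space X] (hX : StronglyStarMenger X)
    (D : Set X) (hD : IsClosed D) [DiscreteTopology D] : #D < κ :=
  mk_lt_of_classes hd hν hfix hb hι R hR hcov hX hD

end Pool.Agent.Results.MP_d02fb9_lc.WeakHypothesis
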